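import Mathlib
import Pool.Agent.D0H46.DC.Inst

namespace Pool.Agent.Results.MP_dcacaa_nt.Full

open Polynomial Finset

/-- The indeterminate `q` of the field `ℚ(q)`. -/
noncomputable def q : RatFunc ℚ := RatFunc.X

/-- The `q`-integer `[m] = (1 - q^m) / (1 - q)`, for an integer `m`. -/
noncomputable def qInt (m : ℤ) : RatFunc ℚ := (1 - q ^ m) / (1 - q)

/-- The shifted factorial `(a; b)_k = (1 - a) (1 - a b) ⋯ (1 - a b^(k-1))`. -/
noncomputable def qPoch (a b : RatFunc ℚ) (k : ℕ) : RatFunc ℚ := ∏ i ∈ range k, (1 - a * b ^ i)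

/-- The sum `S_{d,n}(q)` of the problem. -/
noncomputable def S (d n : ℕ) : RatFunc ℚ :=
  ∑ k ∈ range n, q ^ (d * (d - 1) * k / 2) * qInt (2 * (d : ℤ) * k - 1) *
    (qPoch q⁻¹ (q ^ d) k / qPoch (q ^ d) (q ^ d) k) ^ d

/-- The embedding `ℤ[q] → ℚ(q)`. -/
noncomputable def emb (A : ℤ[X]) : RatFunc ℚ :=
  algebraMap ℚ[X] (RatFunc ℚ) (A.map (Int.castRingHom ℚ))

/-- `R ≡ 0 (mod Φ_n(q)^m)`: `R = A / B` with `A, B ∈ ℤ[q]`, `B ≠ 0`, `Φ_n^m ∣ A`, `gcd (B, Φ_n) = 1`. -/
def CongZero (R : RatFunc ℚ) (n m : ℕ) : Prop :=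
  ∃ A B : ℤ[X], B ≠ 0 ∧ IsRelPrime B (cyclotomic n ℤ) ∧ (cyclotomic n ℤ) ^ m ∣ A ∧ R = emb A / emb B

open Pool.Agent.D0H46.DC in
theorem coe_term (d n M t a m : ℕ) (hn : 0 < n) (h : Ar d n M t a) (hm : d = 2 * m + 1) (k : ℕ) (hk : k < n) :
    ((Wk (qq n hn) m d k : Loc (cyclotomic n ℤ) (cyc_prime n hn)) : RatFunc ℚ)
      = - ((1 - q) * (q ^ (d * (d - 1) * k / 2) * ((1 - q ^ (2 * (d : ℤ) * k - 1)) / (1 - q)) *
    (qPoch q⁻¹ (q ^ d) k / qPoch (q ^ d) (q ^ d) k) ^ d)) := by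
  have hq1 : (1 - q : RatFunc ℚ) ≠ 0 := by
    intro h
    have := ratX_pow_ne_one 1 one_ne_zero
    apply this
    rw [zpow_one]
    exact (sub_eq_zero.mp h).symm
  have hq0 : (q : RatFunc ℚ) ≠ 0 := RatFunc.X_ne_zero
  have hw : ((wk (qq n hn) m d k : Loc (cyclotomic n ℤ) (cyc_prime n hn)) : RatFunc ℚ)
      = q ^ (d * (d - 1) * k / 2) * (q ^ (2 * (d : ℤ) * k - 1) - 1) := by
    unfold wk
    rw [Subring.coe_mul]
    change _ * (((X (qq n hn) (2 * (d : ℤ) * k - 1) : Loc (cyclotomic n ℤ) (cyc_prime n hn)) : RatFunc ℚ) - 1) = _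
    rw [coe_X, coe_X]
    congr 1
    have e : d * (d - 1) * k / 2 = m * d * k := by
      rw [hm]
      have : (2 * m + 1) * (2 * m + 1 - 1) * k = 2 * (m * (2 * m + 1) * k) := by
        rw [Nat.add_sub_cancel]; ring
      rw [this, Nat.mul_div_cancel_left _ (by norm_num)]
    rw [e]
    unfold q
    rw [← zpow_natCast]
    push_cast
    rfl
  have hA : ((Ak (qq n hn) d k : Loc (cyclotomic n ℤ) (cyc_prime n hn)) : RatFunc ℚ)
      = qPoch q⁻¹ (q ^ d) k / qPoch (q ^ d) (q ^ d) k := by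
    unfold Ak qPoch
    rw [← prod_div_distrib]
    have := map_prod (Loc (cyclotomic n ℤ) (cyc_prime n hn)).subtype
      (fun i : ℕ => ((1 - X (qq n hn) (-1 + d * (i : ℤ))) * iv (qq n hn) (d * ((i : ℤ) + 1)))) (range k)
    simp only [Subring.coe_subtype] at this
    rw [this]
    apply prod_congr rfl
    intro i hi
    have hi := mem_range.mp hi
    have hu : IsUnit (1 - X (qq n hn) (d * ((i : ℤ) + 1))) := by
      apply (hyp_inst n hn).hu
      apply h.hd _ (by positivity)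
      have : i + 1 < n := by omega
      exact_mod_cast this
    have hiv := phi_iv (q := qq n hn) (Loc (cyclotomic n ℤ) (cyc_prime n hn)).subtype hu
    simp only [Subring.coe_subtype, coe_qq] at hiv
    rw [Subring.coe_mul, hiv, div_eq_mul_inv]
    congr 1
    · change (1 : RatFunc ℚ) - ((X (qq n hn) (-1 + (d : ℤ) * i) : Loc (cyclotomic n ℤ) (cyc_prime n hn)) : RatFunc ℚ) = _
      rw [coe_X]
      congr 1
      change q ^ (-1 + (d : ℤ) * i) = _
      rw [zpow_add₀ hq0, zpow_neg_one, zpow_mul, zpow_natCast, zpow_natCast]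
    · congr 2
      change q ^ ((d : ℤ) * (i + 1)) = _
      rw [mul_add, zpow_add₀ hq0, mul_one, zpow_mul, zpow_natCast, zpow_natCast, mul_comm]
  unfold Wk
  rw [Subring.coe_mul, Subring.coe_pow, hw, hA]
  field_simp
  ring

open Pool.Agent.D0H46.DC in
theorem finish (d n M t a m e : ℕ) (hn : 1 < n) (h : Ar d n M t a) (hm : d = 2 * m + 1)
    (hdiv : (uu (qq n (by omega)) n) ^ e ∣ ∑ k ∈ range n, Wk (qq n (by omega)) m d k) :
    CongZero (S d n) n e := by
  have hn0 : 0 < n := by omega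
  have hu1 : IsUnit (1 - X (qq n hn0) 1) := by
    apply (hyp_inst n hn0).hu
    intro h
    have := Int.le_of_dvd one_pos h
    omega
  have h1 : (uu (qq n hn0) n) ^ e ∣ (∑ k ∈ range n, Wk (qq n hn0) m d k) * (- iv (qq n hn0) 1) :=
    Dvd.dvd.mul_right hdiv _
  obtain ⟨A, B, hB, hA, hz⟩ := extract n hn0 e _ h1
  have hB0 : B ≠ 0 := by
    rintro rfl
    exact hB (dvd_zero _)
  refine ⟨A, B, hB0, ?_, hA, ?_⟩
  · exact ((cyclotomic.irreducible hn0).isRelPrime_iff_not_dvd.mpr hB).symm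
  · change _ = io A / io B
    rw [← hz]
    have hiv := phi_iv (q := qq n hn0) (Loc (cyclotomic n ℤ) (cyc_prime n hn0)).subtype hu1
    simp only [Subring.coe_subtype, coe_qq, zpow_one] at hiv
    rw [Subring.coe_mul]
    change _ = _ * (- ((iv (qq n hn0) 1 : Loc (cyclotomic n ℤ) (cyc_prime n hn0)) : RatFunc ℚ))
    rw [hiv]
    have := map_sum (Loc (cyclotomic n ℤ) (cyc_prime n hn0)).subtype (fun k => Wk (qq n hn0) m d k) (range n)
    simp only [Subring.coe_subtype] at this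
    rw [this]
    have e2 : ∀ k ∈ range n, ((Wk (qq n hn0) m d k : Loc (cyclotomic n ℤ) (cyc_prime n hn0)) : RatFunc ℚ)
      = - ((1 - q) * (q ^ (d * (d - 1) * k / 2) * ((1 - q ^ (2 * (d : ℤ) * k - 1)) / (1 - q)) *
      (qPoch q⁻¹ (q ^ d) k / qPoch (q ^ d) (q ^ d) k) ^ d)) := fun k hk =>
        coe_term d n M t a m hn0 h hm k (mem_range.mp hk)
    rw [sum_congr rfl e2, sum_neg_distrib, ← mul_sum]
    have hq1 : (1 - q : RatFunc ℚ) ≠ 0 := by
      intro h
      have := ratX_pow_ne_one 1 one_ne_zero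
      apply this
      rw [zpow_one]
      exact (sub_eq_zero.mp h).symm
    change _ = -((1 - q) * S d n) * -(1 - q)⁻¹
    field_simp

open Pool.Agent.D0H46.DC in
/-- Q1 in full: both congruences hold. -/
theorem result : ∀ d n : ℕ, 5 ≤ d → Odd d → 1 < n →
    ((n ≡ 1 [MOD d] → CongZero (S d n) n 3) ∧
      (2 * n ≡ 1 [MOD d] → CongZero (S d n) n 4)) := by
  intro d n hd5 hodd hn
  have hn0 : 0 < n := by omega
  obtain ⟨m, hm⟩ := hodd
  have hcop : ∀ a t : ℕ, d * t + 1 = a * n → ∀ j : ℤ, 0 < j → j < n → ¬ (n : ℤ) ∣ d * j := by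
    intro a t hat j h0 h1 hdvd
    have hc : IsCoprime (n : ℤ) (d : ℤ) := by
      refine ⟨a, -t, ?_⟩
      have : (d : ℤ) * t + 1 = a * n := by exact_mod_cast hat
      linear_combination -this
    have := hc.dvd_of_dvd_mul_left hdvd
    have := Int.le_of_dvd h0 this
    omega
  have hdn : ∀ j : ℤ, (d : ℤ) * j ≠ 1 := by
    intro j hj
    have : (d : ℤ) ∣ 1 := Dvd.intro _ hj
    have := Int.le_of_dvd one_pos this
    omega
  have hu0 : uu (qq n hn0) n ≠ 0 := by
    unfold uu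
    intro h
    exact (hyp_inst n hn0).hne n (by omega) (sub_eq_zero.mp h)
  constructor
  · intro hmod
    obtain ⟨t, ht⟩ := (Nat.modEq_iff_dvd' hn.le).mp hmod.symm
    have ht0 : 0 < t := by
      rcases Nat.eq_zero_or_pos t with h | h
      · subst h; omega
      · exact h
    have hn1 : n = (2 * m + 1) * t + 1 := by rw [← hm]; omega
    have hM : (2 * m * t + 1) + t = n := by rw [hn1]; ring
    have hda : d * t + 1 = 1 * n := by omega
    have har : Ar d n (2 * m * t + 1) t 1 := ⟨hcop 1 t hda, hM, ht0, hda, by omega, hdn⟩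
    exact finish d n (2 * m * t + 1) t 1 m 3 hn har hm
      (mainA har (hyp_inst n hn0) (two_unit n hn0) hu0 m hm (by omega) rfl)
  · intro hmod
    obtain ⟨t, ht⟩ := (Nat.modEq_iff_dvd' (by omega : 1 ≤ 2 * n)).mp hmod.symm
    have hda : d * t + 1 = 2 * n := by omega
    have htodd : Odd t := by
      by_contra h
      rw [Nat.not_odd_iff_even] at h
      have : Even (d * t) := h.mul_left d
      have h2 : Even (d * t + 1) := by rw [hda]; exact even_two_mul n
      exact (Nat.not_even_iff_odd.mpr this.add_one) h2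
    obtain ⟨r, hr⟩ := htodd
    have ht0 : 0 < t := by omega
    have htn : t ≤ n := by nlinarith
    have har : Ar d n (n - t) t 2 := ⟨hcop 2 t hda, by omega, ht0, hda, by omega, hdn⟩
    exact finish d n (n - t) t 2 m 4 hn har hm
      (mainB har (hyp_inst n hn0) (two_unit n hn0) hu0 m r hm (by omega) hr)

end Pool.Agent.Results.MP_dcacaa_nt.Full
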